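import Mathlib

set_option autoImplicit false

open Set Filter Topology TopologicalSpace

namespace Pool.Agent.H.MP_36ad39
universe u v

lemma ascoli {X : Type} [TopologicalSpace X] [SequentialSpace X] {K : Set C(X, ℝ)}
    (hK : IsCompact K) : Continuous fun p : K × X => p.1.1 p.2 := by
  have := isCompact_iff_compactSpace.1 hK
  let F : X → C(K, ℝ) := fun x => ⟨fun f => f.1 x, by fun_prop⟩
  have hF : Continuous F := continuous_iff_seqContinuous.2 fun x y h => by
    have := isCompact_iff_compactSpace.1 h.isCompact_insert_range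
    let G : C((insert y (range x) : Set X) × K, ℝ) := ⟨fun p => p.2.1.restrict _ p.1,
      continuous_eval.comp (((ContinuousMap.continuous_restrict _).comp
        (continuous_subtype_val.comp continuous_snd)).prodMk continuous_fst)⟩
    exact (G.curry.continuous.tendsto ⟨y, .inl rfl⟩).comp
      (tendsto_subtype_rng.2 h : Tendsto (fun n => (⟨x n, .inr ⟨n, rfl⟩⟩ : (insert y (range x) :
        Set X))) _ _)
  exact continuous_eval.comp ((hF.comp continuous_snd).prodMk continuous_fst)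

lemma basis {X : Type u} {Y : Type v} [TopologicalSpace X] [MetricSpace Y] (f : C(X, Y)) :
    (𝓝 f).HasBasis (fun p : Set X × ℕ => IsCompact p.1 ∧ True)
      fun p => {g | ∀ x ∈ p.1, dist (g x) (f x) < 1 / ((p.2 : ℝ) + 1)} :=
  nhds_basis_uniformity Metric.uniformity_basis_dist_inv_nat_succ.compactConvergenceUniformity

lemma few (T : Type u) [TopologicalSpace T] [SecondCountableTopology T] (D : Set ℝ → Set T)
    (hD : ∀ A, IsClosed (D A)) : ¬ D.Injective := by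
  intro h
  obtain ⟨f, hf⟩ := exists_injective_nat (countableBasis T)
  have h1 : Function.Injective fun A => f '' {B | Disjoint B.1 (D A)} := fun A B hAB => by
    have h2 := Set.ext_iff.1 (hf.image_injective hAB)
    have h3 (A : Set ℝ) (x : T) : x ∉ D A ↔ ∃ B : countableBasis T, x ∈ B.1 ∧ Disjoint B.1 (D A) :=
      ⟨fun hx => by
        obtain ⟨B, h3, h4, h5⟩ :=
          (isBasis_countableBasis T).exists_subset_of_mem_open hx (hD A).isOpen_compl
        exact ⟨⟨B, h3⟩, h4, subset_compl_iff_disjoint_right.1 h5⟩,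
      fun ⟨B, h3, h4⟩ => disjoint_left.1 h4 h3⟩
    refine h (Set.ext fun x => not_iff_not.1 ?_)
    simp only [h3]
    exact exists_congr fun B => and_congr_right' (h2 B)
  have := Cardinal.mk_le_of_injective h1
  simp only [Cardinal.mk_set, Cardinal.mk_real, Cardinal.mk_nat, Cardinal.two_power_aleph0] at this
  exact (Cardinal.cantor _).not_ge this

lemma count {X : Type u} [MetricSpace X] [SecondCountableTopology X]
    (φ : Set ℝ → Compacts X → ℕ → Set ℝ) (h1 : ∀ A n K K', K ≤ K' → φ A K n ⊆ φ A K' n)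
    (h2 : ∀ A K n, closure (φ A K n) ⊆ A) (h3 : ∀ A, ∀ a ∈ A, ∃ K n, a ∈ φ A K n) : False := by
  refine few (Compacts X × ℕ × ℝ) (fun A => closure {p | p.2.2 ∈ φ A p.1 p.2.1})
    (fun _ => isClosed_closure) (Function.LeftInverse.injective (g := fun D => (·.2.2) '' D)
      fun A => Subset.antisymm ?_ fun a ha => ?_)
  · rintro _ ⟨⟨K, n, y⟩, hp, rfl⟩
    obtain ⟨s, hs, hl⟩ := mem_closure_iff_seq_limit.1 hp
    have h4 := Compacts.isCompact_biUnion_coe_of_isCompact hl.fst_nhds.isCompact_insert_range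
    refine h2 A ⟨_, h4⟩ n (mem_closure_of_tendsto hl.snd_nhds.snd_nhds ?_)
    filter_upwards [tendsto_pure.1 (nhds_discrete ℕ ▸ hl.snd_nhds.fst_nhds)] with j hj
    exact h1 A n _ _ (subset_biUnion_of_mem (u := fun K : Compacts X => (K : Set X))
      (Or.inr ⟨j, rfl⟩)) (hj ▸ hs j)
  · obtain ⟨K, n, h⟩ := h3 A a ha
    exact ⟨(K, n, a), subset_closure h, rfl⟩

noncomputable def r (n : ℕ) : ℝ := ((Denumerable.eqv ℚ).symm n : ℚ)

/-- `S` does not accumulate at `a` -/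
def Far (S : Set ℕ) (a : ℝ) : Prop := ∃ U ∈ 𝓝 a, {n | n ∈ S ∧ r n ∈ U}.Finite

lemma Far.mono {S S' : Set ℕ} {a : ℝ} (h : Far S a) (e : S' ⊆ S) : Far S' a :=
  h.imp fun _ h => ⟨h.1, h.2.subset fun _ k => ⟨e k.1, k.2⟩⟩

lemma Far.union {S S' : Set ℕ} {a : ℝ} (h : Far S a) (h' : Far S' a) : Far (S ∪ S') a := by
  obtain ⟨⟨U, a1, a2⟩, V, b1, b2⟩ := And.intro h h'
  exact ⟨U ∩ V, inter_mem a1 b1, (a2.union b2).subset fun n k =>
    k.1.imp (fun e => ⟨e, k.2.1⟩) fun e => ⟨e, k.2.2⟩⟩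

lemma far_fin {S : Set ℕ} (h : S.Finite) (a : ℝ) : Far S a := ⟨univ, univ_mem, h.subset fun _ k => k.1⟩

lemma far_open (S : Set ℕ) : IsOpen {a | Far S a} := isOpen_iff_mem_nhds.2 fun _ ⟨U, u1, u2⟩ =>
  mem_of_superset (interior_mem_nhds.2 u1) fun _ hb => ⟨U, mem_interior_iff_mem_nhds.1 hb, u2⟩

lemma near {S : Set ℕ} {a : ℝ} (h : ¬Far S a) : ∃ n : ℕ → ℕ, (∀ k, n k ∈ S) ∧
    Tendsto n atTop atTop ∧ Tendsto (fun k => r (n k)) atTop (𝓝 a) := by
  have : ∀ k : ℕ, ∃ n, k < n ∧ n ∈ S ∧ dist (r n) a < 1 / (k + 1) := fun k => by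
    obtain ⟨n, n1, n2⟩ := Set.Infinite.exists_gt (fun e => h ⟨_, Metric.ball_mem_nhds a
      (Nat.one_div_pos_of_nat (n := k)), e⟩) k
    exact ⟨n, n2, n1⟩
  choose n n1 n2 n3 using this
  exact ⟨n, n2, tendsto_atTop_mono (fun k => (n1 k).le) tendsto_id,
    tendsto_iff_dist_tendsto_zero.2 (squeeze_zero (fun _ => dist_nonneg) (fun k => (n3 k).le)
      tendsto_one_div_add_atTop_nhds_zero_nat)⟩

lemma near' {S : Set ℕ} {a : ℝ} {n : ℕ → ℕ} (h1 : Tendsto n atTop atTop)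
    (h2 : Tendsto (fun k => r (n k)) atTop (𝓝 a)) (h : Far S a) : ∀ᶠ k in atTop, n k ∉ S := by
  obtain ⟨U, u1, u2⟩ := h
  obtain ⟨m, hm⟩ := u2.bddAbove
  filter_upwards [h2 u1, h1.eventually_gt_atTop m] with k k1 k2 k3
  exact (hm ⟨k3, k1⟩).not_gt k2

lemma not_far (a : ℝ) : ¬Far univ a := fun ⟨U, u1, u2⟩ => by
  obtain ⟨p, q, h, e⟩ := mem_nhds_iff_exists_Ioo_subset.1 u1
  obtain ⟨p', a1, a2⟩ := exists_rat_btwn h.1
  obtain ⟨q', b1, b2⟩ := exists_rat_btwn h.2
  refine Set.Ioo_infinite (show p' < q' by exact_mod_cast a2.trans b1)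
    ((u2.image (Denumerable.eqv ℚ).symm).subset fun x hx =>
      ⟨Denumerable.eqv ℚ x, ⟨trivial, e ?_⟩, Equiv.symm_apply_apply _ _⟩)
  simp only [r, Equiv.symm_apply_apply]
  exact ⟨a1.trans (by exact_mod_cast hx.1), lt_trans (by exact_mod_cast hx.2) b2⟩

end Pool.Agent.H.MP_36ad39
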