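import Pool.Agent.H.MP_36ad39.A

set_option autoImplicit false

open Set Filter Topology TopologicalSpace

namespace Pool.Agent.H.MP_36ad39
universe u v

lemma far_emp {S : Set ℕ} {a : ℝ} (h : ∀ n, n ∉ S) : Far S a :=
  far_fin (finite_empty.subset fun n k => h n k) a

structure T : Type where
  A : Set ℝ
  o : Option ℕ

instance : TopologicalSpace T where
  IsOpen U := ∀ A, ⟨A, none⟩ ∈ U → ∀ a ∉ A, Far {n | ⟨A, some n⟩ ∉ U} a
  isOpen_univ := fun _ _ _ _ => far_emp fun _ h => h trivial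
  isOpen_inter := fun _ _ hs ht A h a ha => by
    exact ((hs A h.1 a ha).union (ht A h.2 a ha)).mono fun _ hn => not_and_or.1 hn
  isOpen_sUnion := fun _ hs A ⟨t, h1, h2⟩ a ha => by
    exact (hs t h1 A h2 a ha).mono fun _ hn k => hn ⟨t, h1, k⟩

lemma open_iff {U : Set T} :
    IsOpen U ↔ ∀ A, ⟨A, none⟩ ∈ U → ∀ a ∉ A, Far {n | ⟨A, some n⟩ ∉ U} a := Iff.rfl

lemma fib (A : Set ℝ) : IsClopen {x : T | x.A = A} :=
  ⟨⟨fun _ h _ _ => far_emp fun _ k => k h⟩,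
    fun _ h _ _ => far_emp fun _ k => k h⟩

lemma iso (A : Set ℝ) (n : ℕ) : IsOpen {(⟨A, some n⟩ : T)} := fun _ h => by cases h

lemma t3 : T3Space T := by
  have : T1Space T := ⟨fun x => ⟨fun A _ a _ => far_fin (Subsingleton.finite fun m h n k => by
    have := (not_not.1 h).trans (not_not.1 k).symm
    simpa using this) a⟩⟩
  have : RegularSpace T := .of_exists_mem_nhds_isClosed_subset fun ⟨A, o⟩ s hs => by
    rcases o with _ | n
    · refine ⟨interior s ∩ {x | x.A = A}, inter_mem (interior_mem_nhds.2 hs)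
        ((fib A).2.mem_nhds rfl), ⟨fun B h a _ => far_fin (finite_empty.subset fun n k => ?_) a⟩,
        inter_subset_left.trans interior_subset⟩
      obtain rfl : B = A := (not_not.1 k).2
      exact h ⟨mem_interior_iff_mem_nhds.2 hs, rfl⟩
    · exact ⟨_, (iso A n).mem_nhds rfl, isClosed_singleton,
        singleton_subset_iff.2 (mem_of_mem_nhds hs)⟩
  infer_instance

lemma nhd {A : Set ℝ} {S : Set ℕ} (h : ∀ a ∉ A, Far S a) :
    {x : T | ∀ n ∈ S, x ≠ ⟨A, some n⟩} ∈ 𝓝 (⟨A, none⟩ : T) := by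
  refine IsOpen.mem_nhds (fun B _ a ha => ?_) fun _ _ h => by cases h
  by_cases e : B = A
  · subst e
    refine (h a ha).mono fun n hn => not_not.1 fun k => hn fun m hm e => k ?_
    cases e; exact hm
  · exact far_emp fun n hn => hn fun m _ k => e (congrArg T.A k)

lemma far_of {A : Set ℝ} {U : Set T} (h : U ∈ 𝓝 (⟨A, none⟩ : T)) (a : ℝ) (ha : a ∉ A) :
    Far {n | ⟨A, some n⟩ ∉ U} a :=
  (isOpen_interior (s := U) A (mem_interior_iff_mem_nhds.2 h) a ha).mono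
    fun _ h k => h (interior_subset k)

instance : FrechetUrysohnSpace T := ⟨fun S ⟨A, o⟩ hx => by
  by_cases e : (⟨A, o⟩ : T) ∈ S
  · exact subset_seqClosure e
  rcases o with _ | n
  · by_cases k : ∀ a ∉ A, Far {n | ⟨A, some n⟩ ∈ S} a
    · obtain ⟨⟨B, o⟩, ⟨b1, rfl : B = A⟩, b2⟩ := mem_closure_iff_nhds.1 hx _
        (inter_mem (nhd k) ((fib A).2.mem_nhds rfl))
      rcases o with _ | n
      exacts [(e b2).elim, (b1 n b2 rfl).elim]
    · push Not at k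
      obtain ⟨a, a1, a2⟩ := k
      obtain ⟨n, n1, n2, n3⟩ := near a2
      exact ⟨fun k => ⟨A, some (n k)⟩, n1, fun U hU =>
        (near' n2 n3 (far_of hU a a1)).mono fun _ h => not_not.1 h⟩
  · obtain ⟨_, rfl, h⟩ := mem_closure_iff.1 hx _ (iso A n) rfl
    exact (e h).elim⟩

lemma key {X : Type u} {Y : Type v} [TopologicalSpace X] [MetricSpace Y]
    (e : T → C(X, Y)) (he : IsInducing e) (A : Set ℝ) : ∃ φ : Compacts X → ℕ → Set ℝ,
      (∀ n K K', K ≤ K' → φ K n ⊆ φ K' n) ∧ (∀ K n, closure (φ K n) ⊆ A) ∧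
        ∀ a ∈ A, ∃ K n, a ∈ φ K n := by
  refine ⟨fun K m => {y | Far {n | ¬∀ x ∈ K, dist (e ⟨A, some n⟩ x) (e ⟨A, none⟩ x) <
    1 / ((m : ℝ) + 1)} y}ᶜ, fun n K K' h y h1 h2 => h1 (h2.mono fun _ a b => a fun x hx =>
      b x (h hx)), fun K n => ?_, fun a ha => ?_⟩
  · rw [(far_open _).isClosed_compl.closure_eq]
    exact fun y hy => not_not.1 fun k => hy (far_of (he.continuous.continuousAt
      ((basis (e _)).mem_of_mem (i := ((K : Set X), n)) ⟨K.isCompact, trivial⟩)) y k)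
  · obtain ⟨n, -, n2, n3⟩ := near (not_far a)
    have h := nhd (A := A) (S := range n) fun b hb => by
      obtain ⟨U, V, u1, v1, u2, v2, d⟩ := t2_separation (show b ≠ a from fun e => hb (e ▸ ha))
      obtain ⟨m, hm⟩ := eventually_atTop.1 (n3 (v1.mem_nhds v2))
      refine ⟨U, u1.mem_nhds u2, ((finite_lt_nat m).image n).subset ?_⟩
      rintro _ ⟨⟨k, rfl⟩, hk⟩
      exact ⟨k, not_le.1 fun l => disjoint_left.1 d hk (hm k l), rfl⟩
    rw [he.nhds_eq_comap] at h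
    obtain ⟨⟨K, m⟩, ⟨hK, -⟩, h⟩ := ((basis (e _)).comap e).mem_iff.1 h
    refine ⟨⟨K, hK⟩, m, fun k => ?_⟩
    obtain ⟨j, hj⟩ := (near' n2 n3 k).exists
    exact hj fun l => h (a := ⟨A, some (n j)⟩) l _ ⟨j, rfl⟩ rfl

/-- the members of the k-network -/
def N (A : Set ℝ) : ℕ ⊕ ℚ × ℚ × ℕ → Set T
  | .inl n => {⟨A, some n⟩}
  | .inr p => {x | x.A = A ∧ ∀ n, x.o = some n → p.2.2 ≤ n ∧ r n ∈ Ioo (p.1 : ℝ) p.2.1}

lemma N_sub (A : Set ℝ) (j : ℕ ⊕ ℚ × ℚ × ℕ) : N A j ⊆ {x | x.A = A} := by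
  rcases j with n | p
  exacts [singleton_subset_iff.2 rfl, fun _ h => h.1]

lemma net (A : Set ℝ) {K U : Set T} (hK : IsCompact K) (hA : K ⊆ {x | x.A = A}) (hU : IsOpen U)
    (h : K ⊆ U) : ∃ F : Set (ℕ ⊕ ℚ × ℚ × ℕ), F.Finite ∧ K ⊆ ⋃ j ∈ F, N A j ∧
      ∀ j ∈ F, N A j ⊆ U := by
  obtain ⟨g, hg⟩ := exists_surjective_nat (ℕ ⊕ ℚ × ℚ × ℕ)
  let P : ℕ → Set T := fun m => ⋃ j ∈ {j | j ∈ g '' Iio m ∧ N A j ⊆ U}, N A j
  have p1 : ∀ j, N A j ⊆ U → ∃ k, ∀ m > k, N A j ⊆ P m := fun j hj => (hg j).imp fun k hk m hm =>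
    subset_biUnion_of_mem (u := N A) (show j ∈ {j | j ∈ g '' Iio m ∧ N A j ⊆ U} from
      ⟨⟨k, hm, hk⟩, hj⟩)
  have p2 : Monotone P := fun a b e => biUnion_subset_biUnion_left fun j hj =>
    ⟨image_mono (Iio_subset_Iio e) hj.1, hj.2⟩
  suffices ∃ m, K ⊆ P m from this.elim fun m hm =>
    ⟨_, ((finite_Iio m).image g).subset fun _ h => h.1, hm, fun _ h => h.2⟩
  by_contra! hc
  choose x x1 x2 using fun m => not_subset.1 (hc m)
  obtain ⟨m, hm⟩ := hK.elim_directed_cover (fun m => U \ (range x \ P m)) (fun m B hB a ha => by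
    by_cases e : B = A
    · subst e
      obtain ⟨V, v1, v2⟩ := hU B hB.1 a ha
      obtain ⟨p, q, a1, a2⟩ := mem_nhds_iff_exists_Ioo_subset.1 v1
      obtain ⟨p', b1, b2⟩ := exists_rat_btwn a1.1
      obtain ⟨q', c1, c2⟩ := exists_rat_btwn a1.2
      obtain ⟨j, hj⟩ := v2.bddAbove
      obtain ⟨k, hk⟩ := p1 (.inr (p', q', j + 1)) (by
        rintro ⟨C, _ | n⟩ ⟨rfl : C = B, z⟩
        · exact hB.1
        · exact not_not.1 fun w => (Nat.succ_le_iff.1 (z n rfl).1).not_ge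
            (hj ⟨w, a2 ⟨b1.trans (z n rfl).2.1, (z n rfl).2.2.trans c2⟩⟩))
      refine ((hU B hB.1 a ha).union (S' := {n | ⟨B, some n⟩ ∈ range x}) ⟨_, Ioo_mem_nhds b2 c1,
        ((finite_le_nat j).union (((finite_le_nat k).image x).preimage
          (f := fun n => (⟨B, some n⟩ : T)) fun _ _ _ _ h => by simpa using h)).subset ?_⟩).mono
        fun n hn => ?_
      · rintro n ⟨⟨l, hl⟩, hn⟩
        by_contra! w
        simp only [mem_union, mem_ofPred, not_or, not_le] at w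
        refine x2 l (hk l (not_le.1 fun z => w.2 ⟨l, z, hl⟩) (hl ▸ ⟨rfl, fun i hi => ?_⟩))
        cases hi
        exact ⟨w.1, hn⟩
      · by_contra w
        exact hn ⟨not_not.1 fun z => w (.inl z), fun z => w (.inr z.1)⟩
    · refine (hU B hB.1 a ha).mono fun n hn w => hn ⟨w, fun ⟨⟨l, hl⟩, _⟩ => e ?_⟩
      exact (congrArg T.A hl).symm.trans (hA (x1 l)))
    (fun ⟨B, o⟩ hy => by
      obtain rfl : B = A := hA hy
      have : ∃ j, ⟨B, o⟩ ∈ N B j ∧ N B j ⊆ U := by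
        rcases o with _ | n
        · refine ⟨.inr (0, 0, 0), ⟨rfl, fun _ h => by cases h⟩, ?_⟩
          rintro ⟨C, _ | n⟩ ⟨rfl : C = B, z⟩
          exacts [h hy, by simpa using (z n rfl).2]
        · exact ⟨.inl n, rfl, singleton_subset_iff.2 (h hy)⟩
      obtain ⟨j, j1, j2⟩ := this
      obtain ⟨k, hk⟩ := p1 j j2
      exact mem_iUnion.2 ⟨k + 1, h hy, fun w => w.2 (hk _ k.lt_succ_self j1)⟩)
    (Monotone.directed_le fun a b e => sdiff_subset_sdiff_right (sdiff_subset_sdiff_right (p2 e)))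
  exact (hm (x1 m)).2 ⟨⟨m, rfl⟩, x2 m⟩

end Pool.Agent.H.MP_36ad39
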